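import Pool.Agent.helper12.GP.Pm

/-!
Generated: constants of the corner programs of the table E12a.
-/

namespace Pool.Agent.helper12.KE

open Pool.Agent.helper31.IA (Z)
open Pool.Agent.helper12.GP

def p0 : Pm where
  ec := ⟨73282879488, 0, 0, 0⟩
  bc := ⟨0, 0, 0, 0⟩
  nn := ⟨1099511627776, 0, 0, 0⟩
  tj := ⟨4398046511104, 0, 0, 0⟩
  ca := ⟨1099511627776, 0, 0, 0⟩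
  cb := ⟨879662989312, 0, 0, 0⟩
  cc := ⟨0, 0, 0, 0⟩
  ax := ⟨0, 0, 0, 0⟩
  ay := ⟨0, 0, 0, 0⟩
  xa := ⟨0, 0, 0, 0⟩
  C2 := ⟨0, 0, 0, 0⟩
  wr := ⟨0, 756719550464, 0, 0⟩
  wi := ⟨5872294035456, 0, 0, 0⟩
  w1 := ⟨0, 5669356830720, 0, 0⟩
  h000 := ⟨0, 53045860096, 0, 0⟩
  h001 := ⟨42172396096, 0, 0, 0⟩
  h002 := ⟨0, 48427854528, 0, 0⟩
  h003 := ⟨66093996032, 0, 0, 0⟩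
  h010 := ⟨0, 1044675583488, 0, 0⟩
  h011 := ⟨410170653504, 0, 0, 0⟩
  h012 := ⟨0, 420259439232, 0, 0⟩
  h020 := ⟨0, 331523791552, 0, 0⟩
  h021 := ⟨10714258418368, 0, 0, 0⟩
  h030 := ⟨33047020316544, 0, 0, 0⟩
  h100 := ⟨11108343872, 0, 0, 0⟩
  h101 := ⟨0, 4887813888, 0, 0⟩
  h102 := ⟨0, 691350336, 0, 0⟩
  h110 := ⟨175688843200, 0, 0, 0⟩
  h111 := ⟨0, 137678679232, 0, 0⟩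
  h120 := ⟨44561730752, 0, 0, 0⟩
  h200 := ⟨0, 1652812096, 0, 0⟩
  h201 := ⟨216169536, 0, 0, 0⟩
  h210 := ⟨0, 15447747392, 0, 0⟩
  h300 := ⟨132853632, 0, 0, 0⟩
  h400 := ⟨0, 5336064, 0, 0⟩
  m000 := ⟨1091330441216, 0, 0, 0⟩
  m001 := ⟨0, 3462987776, 0, 0⟩
  m002 := ⟨34971910144, 0, 0, 0⟩
  m010 := ⟨566784884736, 0, 0, 0⟩
  m100 := ⟨44074598400, 0, 0, 0⟩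
  m101 := ⟨256311296, 0, 0, 0⟩
  m110 := ⟨568698077184, 0, 0, 0⟩
  m200 := ⟨0, 1965883392, 0, 0⟩
  m300 := ⟨221839360, 0, 0, 0⟩
  a00 := ⟨76698091520, 0, 0, 0⟩
  a01 := ⟨84973977600, 0, 0, 0⟩
  a02 := ⟨0, 334568947712, 0, 0⟩
  a03 := ⟨72486748160, 0, 0, 0⟩
  a10 := ⟨216943820800, 0, 0, 0⟩
  a11 := ⟨277899968512, 0, 0, 0⟩
  b00 := ⟨65757708288, 0, 0, 0⟩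
  b01 := ⟨44356599808, 0, 0, 0⟩
  b02 := ⟨0, 173921599488, 0, 0⟩
  b03 := ⟨0, 103794540544, 0, 0⟩
  b10 := ⟨243861553152, 0, 0, 0⟩
  b11 := ⟨164836409344, 0, 0, 0⟩
  t00 := ⟨813329547264, 0, 0, 0⟩
  t01 := ⟨0, 86102769664, 0, 0⟩
  t02 := ⟨0, 1661152460800, 0, 0⟩
  t03 := ⟨762097041408, 0, 0, 0⟩
  t10 := ⟨516829413376, 0, 0, 0⟩
  t11 := ⟨5959398195200, 0, 0, 0⟩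
  s00 := ⟨1495860051968, 0, 0, 0⟩
  s01 := ⟨1683715784704, 0, 0, 0⟩
  s02 := ⟨145252876288, 0, 0, 0⟩
  s03 := ⟨0, 4539106852864, 0, 0⟩
  s10 := ⟨0, 7114998874112, 0, 0⟩
  s11 := ⟨0, 5241612402688, 0, 0⟩
  g00 := ⟨92142591104, 0, 0, 0⟩
  g01 := ⟨0, 209880174976, 0, 0⟩
  g10 := ⟨1611298385536, 0, 0, 0⟩
  g11 := ⟨0, 0, 0, 0⟩
  f00 := ⟨1407557260096, 0, 0, 0⟩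
  f01 := ⟨216841913024, 0, 0, 0⟩
  f10 := ⟨28832252189888, 0, 0, 0⟩
  f11 := ⟨0, 0, 0, 0⟩
  l000 := ⟨0, 0, 0, 0⟩
  l001 := ⟨0, 0, 0, 0⟩
  l002 := ⟨0, 0, 0, 0⟩
  l010 := ⟨0, 0, 0, 0⟩
  l011 := ⟨0, 0, 0, 0⟩
  l020 := ⟨0, 0, 0, 0⟩
  l100 := ⟨0, 0, 0, 0⟩
  l101 := ⟨0, 0, 0, 0⟩
  l102 := ⟨0, 0, 0, 0⟩
  l110 := ⟨0, 0, 0, 0⟩
  l111 := ⟨0, 0, 0, 0⟩
  l120 := ⟨0, 0, 0, 0⟩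
  l200 := ⟨0, 0, 0, 0⟩
  l201 := ⟨0, 0, 0, 0⟩
  l210 := ⟨0, 0, 0, 0⟩
  l300 := ⟨0, 0, 0, 0⟩
  l301 := ⟨0, 0, 0, 0⟩
  l310 := ⟨0, 0, 0, 0⟩
  l400 := ⟨0, 0, 0, 0⟩
  l401 := ⟨0, 0, 0, 0⟩
  l410 := ⟨0, 0, 0, 0⟩
  l500 := ⟨0, 0, 0, 0⟩
  l600 := ⟨0, 0, 0, 0⟩
  l700 := ⟨0, 0, 0, 0⟩
  q00 := ⟨0, 0, 0, 0⟩
  q01 := ⟨0, 0, 0, 0⟩
  q02 := ⟨0, 0, 0, 0⟩
  q03 := ⟨0, 0, 0, 0⟩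
  q10 := ⟨0, 0, 0, 0⟩
  q11 := ⟨0, 0, 0, 0⟩
  q12 := ⟨0, 0, 0, 0⟩
  q20 := ⟨0, 0, 0, 0⟩
  q21 := ⟨0, 0, 0, 0⟩
  q30 := ⟨0, 0, 0, 0⟩
  n000 := ⟨0, 0, 0, 0⟩
  n001 := ⟨0, 0, 0, 0⟩
  n002 := ⟨0, 0, 0, 0⟩
  n010 := ⟨0, 0, 0, 0⟩
  n011 := ⟨0, 0, 0, 0⟩
  n020 := ⟨0, 0, 0, 0⟩
  n100 := ⟨0, 0, 0, 0⟩
  n101 := ⟨0, 0, 0, 0⟩
  n110 := ⟨0, 0, 0, 0⟩
  n200 := ⟨0, 0, 0, 0⟩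
  n201 := ⟨0, 0, 0, 0⟩
  n210 := ⟨0, 0, 0, 0⟩
  n300 := ⟨0, 0, 0, 0⟩
  n400 := ⟨0, 0, 0, 0⟩
  n500 := ⟨0, 0, 0, 0⟩
  e00 := ⟨0, 0, 0, 0⟩
  e01 := ⟨0, 0, 0, 0⟩
  e02 := ⟨0, 0, 0, 0⟩
  e03 := ⟨0, 0, 0, 0⟩
  e10 := ⟨0, 0, 0, 0⟩
  e11 := ⟨0, 0, 0, 0⟩
  B1 := 0

def p1 : Pm where
  ec := ⟨73282879488, 0, 0, 0⟩
  bc := ⟨0, 0, 0, 0⟩
  nn := ⟨2199023255552, 0, 0, 0⟩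
  tj := ⟨6597069766656, 0, 0, 0⟩
  ca := ⟨879662989312, 0, 0, 0⟩
  cb := ⟨659814350848, 0, 0, 0⟩
  cc := ⟨0, 0, 0, 0⟩
  ax := ⟨0, 0, 0, 0⟩
  ay := ⟨0, 0, 0, 0⟩
  xa := ⟨0, 0, 0, 0⟩
  C2 := ⟨0, 0, 0, 0⟩
  wr := ⟨0, 756719550464, 0, 0⟩
  wi := ⟨5872294035456, 0, 0, 0⟩
  w1 := ⟨0, 5669356830720, 0, 0⟩
  h000 := ⟨0, 53045860096, 0, 0⟩
  h001 := ⟨42172396096, 0, 0, 0⟩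
  h002 := ⟨0, 48427854528, 0, 0⟩
  h003 := ⟨66093996032, 0, 0, 0⟩
  h010 := ⟨0, 1044675583488, 0, 0⟩
  h011 := ⟨410170653504, 0, 0, 0⟩
  h012 := ⟨0, 420259439232, 0, 0⟩
  h020 := ⟨0, 331523791552, 0, 0⟩
  h021 := ⟨10714258418368, 0, 0, 0⟩
  h030 := ⟨33047020316544, 0, 0, 0⟩
  h100 := ⟨11108343872, 0, 0, 0⟩
  h101 := ⟨0, 4887813888, 0, 0⟩
  h102 := ⟨0, 691350336, 0, 0⟩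
  h110 := ⟨175688843200, 0, 0, 0⟩
  h111 := ⟨0, 137678679232, 0, 0⟩
  h120 := ⟨44561730752, 0, 0, 0⟩
  h200 := ⟨0, 1652812096, 0, 0⟩
  h201 := ⟨216169536, 0, 0, 0⟩
  h210 := ⟨0, 15447747392, 0, 0⟩
  h300 := ⟨132853632, 0, 0, 0⟩
  h400 := ⟨0, 5336064, 0, 0⟩
  m000 := ⟨1093434933248, 0, 0, 0⟩
  m001 := ⟨0, 4716036096, 0, 0⟩
  m002 := ⟨40837578752, 0, 0, 0⟩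
  m010 := ⟨376434786304, 0, 0, 0⟩
  m100 := ⟨42810802176, 0, 0, 0⟩
  m101 := ⟨48103424, 0, 0, 0⟩
  m110 := ⟨555419107328, 0, 0, 0⟩
  m200 := ⟨0, 1604780032, 0, 0⟩
  m300 := ⟨152633344, 0, 0, 0⟩
  a00 := ⟨65757708288, 0, 0, 0⟩
  a01 := ⟨44356599808, 0, 0, 0⟩
  a02 := ⟨0, 173921599488, 0, 0⟩
  a03 := ⟨0, 103794540544, 0, 0⟩
  a10 := ⟨243861553152, 0, 0, 0⟩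
  a11 := ⟨164836409344, 0, 0, 0⟩
  b00 := ⟨56332386304, 0, 0, 0⟩
  b01 := ⟨24650448896, 0, 0, 0⟩
  b02 := ⟨0, 138267852800, 0, 0⟩
  b03 := ⟨0, 28878569472, 0, 0⟩
  b10 := ⟨256626589696, 0, 0, 0⟩
  b11 := ⟨0, 67853352960, 0, 0⟩
  t00 := ⟨702342234112, 0, 0, 0⟩
  t01 := ⟨0, 115322912768, 0, 0⟩
  t02 := ⟨0, 1118470340608, 0, 0⟩
  t03 := ⟨2155810914304, 0, 0, 0⟩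
  t10 := ⟨821178793984, 0, 0, 0⟩
  t11 := ⟨7825673420800, 0, 0, 0⟩
  s00 := ⟨2309189599232, 0, 0, 0⟩
  s01 := ⟨1597613015040, 0, 0, 0⟩
  s02 := ⟨0, 1515899584512, 0, 0⟩
  s03 := ⟨0, 3777009811456, 0, 0⟩
  s10 := ⟨0, 6598169460736, 0, 0⟩
  s11 := ⟨717785792512, 0, 0, 0⟩
  g00 := ⟨92142591104, 0, 0, 0⟩
  g01 := ⟨0, 209880174976, 0, 0⟩
  g10 := ⟨1611298385536, 0, 0, 0⟩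
  g11 := ⟨0, 0, 0, 0⟩
  f00 := ⟨1407557260096, 0, 0, 0⟩
  f01 := ⟨216841913024, 0, 0, 0⟩
  f10 := ⟨28832252189888, 0, 0, 0⟩
  f11 := ⟨0, 0, 0, 0⟩
  l000 := ⟨0, 0, 0, 0⟩
  l001 := ⟨0, 0, 0, 0⟩
  l002 := ⟨0, 0, 0, 0⟩
  l010 := ⟨0, 0, 0, 0⟩
  l011 := ⟨0, 0, 0, 0⟩
  l020 := ⟨0, 0, 0, 0⟩
  l100 := ⟨0, 0, 0, 0⟩
  l101 := ⟨0, 0, 0, 0⟩
  l102 := ⟨0, 0, 0, 0⟩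
  l110 := ⟨0, 0, 0, 0⟩
  l111 := ⟨0, 0, 0, 0⟩
  l120 := ⟨0, 0, 0, 0⟩
  l200 := ⟨0, 0, 0, 0⟩
  l201 := ⟨0, 0, 0, 0⟩
  l210 := ⟨0, 0, 0, 0⟩
  l300 := ⟨0, 0, 0, 0⟩
  l301 := ⟨0, 0, 0, 0⟩
  l310 := ⟨0, 0, 0, 0⟩
  l400 := ⟨0, 0, 0, 0⟩
  l401 := ⟨0, 0, 0, 0⟩
  l410 := ⟨0, 0, 0, 0⟩
  l500 := ⟨0, 0, 0, 0⟩
  l600 := ⟨0, 0, 0, 0⟩
  l700 := ⟨0, 0, 0, 0⟩
  q00 := ⟨0, 0, 0, 0⟩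
  q01 := ⟨0, 0, 0, 0⟩
  q02 := ⟨0, 0, 0, 0⟩
  q03 := ⟨0, 0, 0, 0⟩
  q10 := ⟨0, 0, 0, 0⟩
  q11 := ⟨0, 0, 0, 0⟩
  q12 := ⟨0, 0, 0, 0⟩
  q20 := ⟨0, 0, 0, 0⟩
  q21 := ⟨0, 0, 0, 0⟩
  q30 := ⟨0, 0, 0, 0⟩
  n000 := ⟨0, 0, 0, 0⟩
  n001 := ⟨0, 0, 0, 0⟩
  n002 := ⟨0, 0, 0, 0⟩
  n010 := ⟨0, 0, 0, 0⟩
  n011 := ⟨0, 0, 0, 0⟩
  n020 := ⟨0, 0, 0, 0⟩
  n100 := ⟨0, 0, 0, 0⟩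
  n101 := ⟨0, 0, 0, 0⟩
  n110 := ⟨0, 0, 0, 0⟩
  n200 := ⟨0, 0, 0, 0⟩
  n201 := ⟨0, 0, 0, 0⟩
  n210 := ⟨0, 0, 0, 0⟩
  n300 := ⟨0, 0, 0, 0⟩
  n400 := ⟨0, 0, 0, 0⟩
  n500 := ⟨0, 0, 0, 0⟩
  e00 := ⟨0, 0, 0, 0⟩
  e01 := ⟨0, 0, 0, 0⟩
  e02 := ⟨0, 0, 0, 0⟩
  e03 := ⟨0, 0, 0, 0⟩
  e10 := ⟨0, 0, 0, 0⟩
  e11 := ⟨0, 0, 0, 0⟩
  B1 := 0

def p2 : Pm where
  ec := ⟨73282879488, 0, 0, 0⟩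
  bc := ⟨0, 0, 0, 0⟩
  nn := ⟨3298534883328, 0, 0, 0⟩
  tj := ⟨8796093022208, 0, 0, 0⟩
  ca := ⟨659814350848, 0, 0, 0⟩
  cb := ⟨494726545408, 0, 0, 0⟩
  cc := ⟨0, 0, 0, 0⟩
  ax := ⟨0, 0, 0, 0⟩
  ay := ⟨0, 0, 0, 0⟩
  xa := ⟨0, 0, 0, 0⟩
  C2 := ⟨0, 0, 0, 0⟩
  wr := ⟨0, 756719550464, 0, 0⟩
  wi := ⟨5872294035456, 0, 0, 0⟩
  w1 := ⟨0, 5669356830720, 0, 0⟩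
  h000 := ⟨0, 53045860096, 0, 0⟩
  h001 := ⟨42172396096, 0, 0, 0⟩
  h002 := ⟨0, 48427854528, 0, 0⟩
  h003 := ⟨66093996032, 0, 0, 0⟩
  h010 := ⟨0, 1044675583488, 0, 0⟩
  h011 := ⟨410170653504, 0, 0, 0⟩
  h012 := ⟨0, 420259439232, 0, 0⟩
  h020 := ⟨0, 331523791552, 0, 0⟩
  h021 := ⟨10714258418368, 0, 0, 0⟩
  h030 := ⟨33047020316544, 0, 0, 0⟩
  h100 := ⟨11108343872, 0, 0, 0⟩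
  h101 := ⟨0, 4887813888, 0, 0⟩
  h102 := ⟨0, 691350336, 0, 0⟩
  h110 := ⟨175688843200, 0, 0, 0⟩
  h111 := ⟨0, 137678679232, 0, 0⟩
  h120 := ⟨44561730752, 0, 0, 0⟩
  h200 := ⟨0, 1652812096, 0, 0⟩
  h201 := ⟨216169536, 0, 0, 0⟩
  h210 := ⟨0, 15447747392, 0, 0⟩
  h300 := ⟨132853632, 0, 0, 0⟩
  h400 := ⟨0, 5336064, 0, 0⟩
  m000 := ⟨1094766297088, 0, 0, 0⟩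
  m001 := ⟨0, 6624051200, 0, 0⟩
  m002 := ⟨57964232704, 0, 0, 0⟩
  m010 := ⟨230069436416, 0, 0, 0⟩
  m100 := ⟨42171170816, 0, 0, 0⟩
  m101 := ⟨0, 465108992, 0, 0⟩
  m110 := ⟨554507567104, 0, 0, 0⟩
  m200 := ⟨0, 1415577600, 0, 0⟩
  m300 := ⟨114884608, 0, 0, 0⟩
  a00 := ⟨56332386304, 0, 0, 0⟩
  a01 := ⟨24650448896, 0, 0, 0⟩
  a02 := ⟨0, 138267852800, 0, 0⟩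
  a03 := ⟨0, 28878569472, 0, 0⟩
  a10 := ⟨256626589696, 0, 0, 0⟩
  a11 := ⟨0, 67853352960, 0, 0⟩
  b00 := ⟨47987884032, 0, 0, 0⟩
  b01 := ⟨10764025856, 0, 0, 0⟩
  b02 := ⟨0, 107528716288, 0, 0⟩
  b03 := ⟨41692495872, 0, 0, 0⟩
  b10 := ⟨267747721216, 0, 0, 0⟩
  b11 := ⟨0, 300006768640, 0, 0⟩
  t00 := ⟨602679803904, 0, 0, 0⟩
  t01 := ⟨173306544128, 0, 0, 0⟩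
  t02 := ⟨0, 2908609183744, 0, 0⟩
  t03 := ⟨8729355157504, 0, 0, 0⟩
  t10 := ⟨1272953634816, 0, 0, 0⟩
  t11 := ⟨8997075550208, 0, 0, 0⟩
  s00 := ⟨3011531833344, 0, 0, 0⟩
  s01 := ⟨1482290102272, 0, 0, 0⟩
  s02 := ⟨0, 2634369925120, 0, 0⟩
  s03 := ⟨0, 1621198897152, 0, 0⟩
  s10 := ⟨0, 5776990666752, 0, 0⟩
  s11 := ⟨8543459213312, 0, 0, 0⟩
  g00 := ⟨92142591104, 0, 0, 0⟩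
  g01 := ⟨0, 209880174976, 0, 0⟩
  g10 := ⟨1611298385536, 0, 0, 0⟩
  g11 := ⟨0, 0, 0, 0⟩
  f00 := ⟨1407557260096, 0, 0, 0⟩
  f01 := ⟨216841913024, 0, 0, 0⟩
  f10 := ⟨28832252189888, 0, 0, 0⟩
  f11 := ⟨0, 0, 0, 0⟩
  l000 := ⟨0, 0, 0, 0⟩
  l001 := ⟨0, 0, 0, 0⟩
  l002 := ⟨0, 0, 0, 0⟩
  l010 := ⟨0, 0, 0, 0⟩
  l011 := ⟨0, 0, 0, 0⟩
  l020 := ⟨0, 0, 0, 0⟩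
  l100 := ⟨0, 0, 0, 0⟩
  l101 := ⟨0, 0, 0, 0⟩
  l102 := ⟨0, 0, 0, 0⟩
  l110 := ⟨0, 0, 0, 0⟩
  l111 := ⟨0, 0, 0, 0⟩
  l120 := ⟨0, 0, 0, 0⟩
  l200 := ⟨0, 0, 0, 0⟩
  l201 := ⟨0, 0, 0, 0⟩
  l210 := ⟨0, 0, 0, 0⟩
  l300 := ⟨0, 0, 0, 0⟩
  l301 := ⟨0, 0, 0, 0⟩
  l310 := ⟨0, 0, 0, 0⟩
  l400 := ⟨0, 0, 0, 0⟩
  l401 := ⟨0, 0, 0, 0⟩
  l410 := ⟨0, 0, 0, 0⟩
  l500 := ⟨0, 0, 0, 0⟩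
  l600 := ⟨0, 0, 0, 0⟩
  l700 := ⟨0, 0, 0, 0⟩
  q00 := ⟨0, 0, 0, 0⟩
  q01 := ⟨0, 0, 0, 0⟩
  q02 := ⟨0, 0, 0, 0⟩
  q03 := ⟨0, 0, 0, 0⟩
  q10 := ⟨0, 0, 0, 0⟩
  q11 := ⟨0, 0, 0, 0⟩
  q12 := ⟨0, 0, 0, 0⟩
  q20 := ⟨0, 0, 0, 0⟩
  q21 := ⟨0, 0, 0, 0⟩
  q30 := ⟨0, 0, 0, 0⟩
  n000 := ⟨0, 0, 0, 0⟩
  n001 := ⟨0, 0, 0, 0⟩
  n002 := ⟨0, 0, 0, 0⟩
  n010 := ⟨0, 0, 0, 0⟩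
  n011 := ⟨0, 0, 0, 0⟩
  n020 := ⟨0, 0, 0, 0⟩
  n100 := ⟨0, 0, 0, 0⟩
  n101 := ⟨0, 0, 0, 0⟩
  n110 := ⟨0, 0, 0, 0⟩
  n200 := ⟨0, 0, 0, 0⟩
  n201 := ⟨0, 0, 0, 0⟩
  n210 := ⟨0, 0, 0, 0⟩
  n300 := ⟨0, 0, 0, 0⟩
  n400 := ⟨0, 0, 0, 0⟩
  n500 := ⟨0, 0, 0, 0⟩
  e00 := ⟨0, 0, 0, 0⟩
  e01 := ⟨0, 0, 0, 0⟩
  e02 := ⟨0, 0, 0, 0⟩
  e03 := ⟨0, 0, 0, 0⟩
  e10 := ⟨0, 0, 0, 0⟩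
  e11 := ⟨0, 0, 0, 0⟩
  B1 := 0

def p3 : Pm where
  ec := ⟨73282879488, 0, 0, 0⟩
  bc := ⟨0, 0, 0, 0⟩
  nn := ⟨4398046511104, 0, 0, 0⟩
  tj := ⟨10995116277760, 0, 0, 0⟩
  ca := ⟨494726545408, 0, 0, 0⟩
  cb := ⟨384936443904, 0, 0, 0⟩
  cc := ⟨0, 0, 0, 0⟩
  ax := ⟨0, 0, 0, 0⟩
  ay := ⟨0, 0, 0, 0⟩
  xa := ⟨0, 0, 0, 0⟩
  C2 := ⟨0, 0, 0, 0⟩
  wr := ⟨0, 756719550464, 0, 0⟩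
  wi := ⟨5872294035456, 0, 0, 0⟩
  w1 := ⟨0, 5669356830720, 0, 0⟩
  h000 := ⟨0, 53045860096, 0, 0⟩
  h001 := ⟨42172396096, 0, 0, 0⟩
  h002 := ⟨0, 48427854528, 0, 0⟩
  h003 := ⟨66093996032, 0, 0, 0⟩
  h010 := ⟨0, 1044675583488, 0, 0⟩
  h011 := ⟨410170653504, 0, 0, 0⟩
  h012 := ⟨0, 420259439232, 0, 0⟩
  h020 := ⟨0, 331523791552, 0, 0⟩
  h021 := ⟨10714258418368, 0, 0, 0⟩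
  h030 := ⟨33047020316544, 0, 0, 0⟩
  h100 := ⟨11108343872, 0, 0, 0⟩
  h101 := ⟨0, 4887813888, 0, 0⟩
  h102 := ⟨0, 691350336, 0, 0⟩
  h110 := ⟨175688843200, 0, 0, 0⟩
  h111 := ⟨0, 137678679232, 0, 0⟩
  h120 := ⟨44561730752, 0, 0, 0⟩
  h200 := ⟨0, 1652812096, 0, 0⟩
  h201 := ⟨216169536, 0, 0, 0⟩
  h210 := ⟨0, 15447747392, 0, 0⟩
  h300 := ⟨132853632, 0, 0, 0⟩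
  h400 := ⟨0, 5336064, 0, 0⟩
  m000 := ⟨1095651229696, 0, 0, 0⟩
  m001 := ⟨0, 6480723968, 0, 0⟩
  m002 := ⟨62677778432, 0, 0, 0⟩
  m010 := ⟨139618877440, 0, 0, 0⟩
  m100 := ⟨41691774976, 0, 0, 0⟩
  m101 := ⟨0, 731054080, 0, 0⟩
  m110 := ⟨557407600640, 0, 0, 0⟩
  m200 := ⟨0, 1297547264, 0, 0⟩
  m300 := ⟨93782016, 0, 0, 0⟩
  a00 := ⟨47987884032, 0, 0, 0⟩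
  a01 := ⟨10764025856, 0, 0, 0⟩
  a02 := ⟨0, 107528716288, 0, 0⟩
  a03 := ⟨41692495872, 0, 0, 0⟩
  a10 := ⟨267747721216, 0, 0, 0⟩
  a11 := ⟨0, 300006768640, 0, 0⟩
  b00 := ⟨40432566272, 0, 0, 0⟩
  b01 := ⟨4100915200, 0, 0, 0⟩
  b02 := ⟨0, 106738286592, 0, 0⟩
  b03 := ⟨182327574528, 0, 0, 0⟩
  b10 := ⟨258529427456, 0, 0, 0⟩
  b11 := ⟨0, 409373704192, 0, 0⟩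
  t00 := ⟨517153095680, 0, 0, 0⟩
  t01 := ⟨0, 298902093824, 0, 0⟩
  t02 := ⟨2909682335744, 0, 0, 0⟩
  t03 := ⟨0, 3667266371584, 0, 0⟩
  t10 := ⟨1554043043840, 0, 0, 0⟩
  t11 := ⟨7603573424128, 0, 0, 0⟩
  s00 := ⟨3614211637248, 0, 0, 0⟩
  s01 := ⟨1655596646400, 0, 0, 0⟩
  s02 := ⟨0, 5542979108864, 0, 0⟩
  s03 := ⟨7108156260352, 0, 0, 0⟩
  s10 := ⟨0, 4504037031936, 0, 0⟩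
  s11 := ⟨17540534763520, 0, 0, 0⟩
  g00 := ⟨92142591104, 0, 0, 0⟩
  g01 := ⟨0, 209880174976, 0, 0⟩
  g10 := ⟨1611298385536, 0, 0, 0⟩
  g11 := ⟨0, 0, 0, 0⟩
  f00 := ⟨1407557260096, 0, 0, 0⟩
  f01 := ⟨216841913024, 0, 0, 0⟩
  f10 := ⟨28832252189888, 0, 0, 0⟩
  f11 := ⟨0, 0, 0, 0⟩
  l000 := ⟨0, 0, 0, 0⟩
  l001 := ⟨0, 0, 0, 0⟩
  l002 := ⟨0, 0, 0, 0⟩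
  l010 := ⟨0, 0, 0, 0⟩
  l011 := ⟨0, 0, 0, 0⟩
  l020 := ⟨0, 0, 0, 0⟩
  l100 := ⟨0, 0, 0, 0⟩
  l101 := ⟨0, 0, 0, 0⟩
  l102 := ⟨0, 0, 0, 0⟩
  l110 := ⟨0, 0, 0, 0⟩
  l111 := ⟨0, 0, 0, 0⟩
  l120 := ⟨0, 0, 0, 0⟩
  l200 := ⟨0, 0, 0, 0⟩
  l201 := ⟨0, 0, 0, 0⟩
  l210 := ⟨0, 0, 0, 0⟩
  l300 := ⟨0, 0, 0, 0⟩
  l301 := ⟨0, 0, 0, 0⟩
  l310 := ⟨0, 0, 0, 0⟩
  l400 := ⟨0, 0, 0, 0⟩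
  l401 := ⟨0, 0, 0, 0⟩
  l410 := ⟨0, 0, 0, 0⟩
  l500 := ⟨0, 0, 0, 0⟩
  l600 := ⟨0, 0, 0, 0⟩
  l700 := ⟨0, 0, 0, 0⟩
  q00 := ⟨0, 0, 0, 0⟩
  q01 := ⟨0, 0, 0, 0⟩
  q02 := ⟨0, 0, 0, 0⟩
  q03 := ⟨0, 0, 0, 0⟩
  q10 := ⟨0, 0, 0, 0⟩
  q11 := ⟨0, 0, 0, 0⟩
  q12 := ⟨0, 0, 0, 0⟩
  q20 := ⟨0, 0, 0, 0⟩
  q21 := ⟨0, 0, 0, 0⟩
  q30 := ⟨0, 0, 0, 0⟩
  n000 := ⟨0, 0, 0, 0⟩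
  n001 := ⟨0, 0, 0, 0⟩
  n002 := ⟨0, 0, 0, 0⟩
  n010 := ⟨0, 0, 0, 0⟩
  n011 := ⟨0, 0, 0, 0⟩
  n020 := ⟨0, 0, 0, 0⟩
  n100 := ⟨0, 0, 0, 0⟩
  n101 := ⟨0, 0, 0, 0⟩
  n110 := ⟨0, 0, 0, 0⟩
  n200 := ⟨0, 0, 0, 0⟩
  n201 := ⟨0, 0, 0, 0⟩
  n210 := ⟨0, 0, 0, 0⟩
  n300 := ⟨0, 0, 0, 0⟩
  n400 := ⟨0, 0, 0, 0⟩
  n500 := ⟨0, 0, 0, 0⟩
  e00 := ⟨0, 0, 0, 0⟩
  e01 := ⟨0, 0, 0, 0⟩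
  e02 := ⟨0, 0, 0, 0⟩
  e03 := ⟨0, 0, 0, 0⟩
  e10 := ⟨0, 0, 0, 0⟩
  e11 := ⟨0, 0, 0, 0⟩
  B1 := 0

def p4 : Pm where
  ec := ⟨73282879488, 0, 0, 0⟩
  bc := ⟨0, 0, 0, 0⟩
  nn := ⟨5497558138880, 0, 0, 0⟩
  tj := ⟨13194139533312, 0, 0, 0⟩
  ca := ⟨384936443904, 0, 0, 0⟩
  cb := ⟨0, 0, 0, 0⟩
  cc := ⟨0, 0, 0, 0⟩
  ax := ⟨2308974418944, 0, 0, 0⟩
  ay := ⟨91625969664, 0, 0, 0⟩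
  xa := ⟨4288095348224, 0, 0, 0⟩
  C2 := ⟨1327712154624, 0, 0, 0⟩
  wr := ⟨0, 756719550464, 0, 0⟩
  wi := ⟨5872294035456, 0, 0, 0⟩
  w1 := ⟨0, 5669356830720, 0, 0⟩
  h000 := ⟨0, 53045860096, 0, 0⟩
  h001 := ⟨42172396096, 0, 0, 0⟩
  h002 := ⟨0, 48427854528, 0, 0⟩
  h003 := ⟨66093996032, 0, 0, 0⟩
  h010 := ⟨0, 1044675583488, 0, 0⟩
  h011 := ⟨410170653504, 0, 0, 0⟩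
  h012 := ⟨0, 420259439232, 0, 0⟩
  h020 := ⟨0, 331523791552, 0, 0⟩
  h021 := ⟨10714258418368, 0, 0, 0⟩
  h030 := ⟨33047020316544, 0, 0, 0⟩
  h100 := ⟨11108343872, 0, 0, 0⟩
  h101 := ⟨0, 4887813888, 0, 0⟩
  h102 := ⟨0, 691350336, 0, 0⟩
  h110 := ⟨175688843200, 0, 0, 0⟩
  h111 := ⟨0, 137678679232, 0, 0⟩
  h120 := ⟨44561730752, 0, 0, 0⟩
  h200 := ⟨0, 1652812096, 0, 0⟩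
  h201 := ⟨216169536, 0, 0, 0⟩
  h210 := ⟨0, 15447747392, 0, 0⟩
  h300 := ⟨132853632, 0, 0, 0⟩
  h400 := ⟨0, 5336064, 0, 0⟩
  m000 := ⟨1094959431680, 0, 0, 0⟩
  m001 := ⟨0, 2972975104, 0, 0⟩
  m002 := ⟨41084125184, 0, 0, 0⟩
  m010 := ⟨56041865216, 0, 0, 0⟩
  m100 := ⟨42259251200, 0, 0, 0⟩
  m101 := ⟨287834112, 0, 0, 0⟩
  m110 := ⟨571075854336, 0, 0, 0⟩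
  m200 := ⟨0, 1454374912, 0, 0⟩
  m300 := ⟨110755840, 0, 0, 0⟩
  a00 := ⟨40432566272, 0, 0, 0⟩
  a01 := ⟨4100915200, 0, 0, 0⟩
  a02 := ⟨0, 106738286592, 0, 0⟩
  a03 := ⟨182327574528, 0, 0, 0⟩
  a10 := ⟨258529427456, 0, 0, 0⟩
  a11 := ⟨0, 409373704192, 0, 0⟩
  b00 := ⟨0, 0, 0, 0⟩
  b01 := ⟨0, 0, 0, 0⟩
  b02 := ⟨0, 0, 0, 0⟩
  b03 := ⟨0, 0, 0, 0⟩
  b10 := ⟨0, 0, 0, 0⟩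
  b11 := ⟨0, 0, 0, 0⟩
  t00 := ⟨436506853376, 0, 0, 0⟩
  t01 := ⟨0, 204770705408, 0, 0⟩
  t02 := ⟨4698745405440, 0, 0, 0⟩
  t03 := ⟨0, 9455202467840, 0, 0⟩
  t10 := ⟨1794625699840, 0, 0, 0⟩
  t11 := ⟨6629775572992, 0, 0, 0⟩
  s00 := ⟨4131364732928, 0, 0, 0⟩
  s01 := ⟨1356694552576, 0, 0, 0⟩
  s02 := ⟨0, 2633296773120, 0, 0⟩
  s03 := ⟨3440889888768, 0, 0, 0⟩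
  s10 := ⟨0, 2949993988096, 0, 0⟩
  s11 := ⟨25144108187648, 0, 0, 0⟩
  g00 := ⟨92142591104, 0, 0, 0⟩
  g01 := ⟨0, 209880174976, 0, 0⟩
  g10 := ⟨1611298385536, 0, 0, 0⟩
  g11 := ⟨0, 0, 0, 0⟩
  f00 := ⟨1407557260096, 0, 0, 0⟩
  f01 := ⟨216841913024, 0, 0, 0⟩
  f10 := ⟨28832252189888, 0, 0, 0⟩
  f11 := ⟨0, 0, 0, 0⟩
  l000 := ⟨0, 0, 0, 0⟩
  l001 := ⟨0, 0, 0, 0⟩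
  l002 := ⟨0, 0, 0, 0⟩
  l010 := ⟨0, 0, 0, 0⟩
  l011 := ⟨0, 0, 0, 0⟩
  l020 := ⟨0, 0, 0, 0⟩
  l100 := ⟨0, 0, 0, 0⟩
  l101 := ⟨0, 0, 0, 0⟩
  l102 := ⟨0, 0, 0, 0⟩
  l110 := ⟨0, 0, 0, 0⟩
  l111 := ⟨0, 0, 0, 0⟩
  l120 := ⟨0, 0, 0, 0⟩
  l200 := ⟨0, 0, 0, 0⟩
  l201 := ⟨0, 0, 0, 0⟩
  l210 := ⟨0, 0, 0, 0⟩
  l300 := ⟨0, 0, 0, 0⟩
  l301 := ⟨0, 0, 0, 0⟩
  l310 := ⟨0, 0, 0, 0⟩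
  l400 := ⟨0, 0, 0, 0⟩
  l401 := ⟨0, 0, 0, 0⟩
  l410 := ⟨0, 0, 0, 0⟩
  l500 := ⟨0, 0, 0, 0⟩
  l600 := ⟨0, 0, 0, 0⟩
  l700 := ⟨0, 0, 0, 0⟩
  q00 := ⟨0, 0, 0, 0⟩
  q01 := ⟨0, 0, 0, 0⟩
  q02 := ⟨0, 0, 0, 0⟩
  q03 := ⟨0, 0, 0, 0⟩
  q10 := ⟨0, 0, 0, 0⟩
  q11 := ⟨0, 0, 0, 0⟩
  q12 := ⟨0, 0, 0, 0⟩
  q20 := ⟨0, 0, 0, 0⟩
  q21 := ⟨0, 0, 0, 0⟩
  q30 := ⟨0, 0, 0, 0⟩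
  n000 := ⟨0, 0, 0, 0⟩
  n001 := ⟨0, 0, 0, 0⟩
  n002 := ⟨0, 0, 0, 0⟩
  n010 := ⟨0, 0, 0, 0⟩
  n011 := ⟨0, 0, 0, 0⟩
  n020 := ⟨0, 0, 0, 0⟩
  n100 := ⟨0, 0, 0, 0⟩
  n101 := ⟨0, 0, 0, 0⟩
  n110 := ⟨0, 0, 0, 0⟩
  n200 := ⟨0, 0, 0, 0⟩
  n201 := ⟨0, 0, 0, 0⟩
  n210 := ⟨0, 0, 0, 0⟩
  n300 := ⟨0, 0, 0, 0⟩
  n400 := ⟨0, 0, 0, 0⟩
  n500 := ⟨0, 0, 0, 0⟩
  e00 := ⟨0, 0, 0, 0⟩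
  e01 := ⟨0, 0, 0, 0⟩
  e02 := ⟨0, 0, 0, 0⟩
  e03 := ⟨0, 0, 0, 0⟩
  e10 := ⟨0, 0, 0, 0⟩
  e11 := ⟨0, 0, 0, 0⟩
  B1 := 659706347520

def pF : Pm where
  ec := ⟨73282879488, 0, 0, 0⟩
  bc := ⟨0, 0, 0, 0⟩
  nn := ⟨0, 0, 0, 0⟩
  tj := ⟨2199023255552, 0, 0, 0⟩
  ca := ⟨1099511627776, 0, 0, 0⟩
  cb := ⟨0, 0, 0, 0⟩
  cc := ⟨879662989312, 0, 0, 0⟩
  ax := ⟨0, 0, 0, 0⟩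
  ay := ⟨0, 0, 0, 0⟩
  xa := ⟨0, 0, 0, 0⟩
  C2 := ⟨0, 0, 0, 0⟩
  wr := ⟨0, 756719550464, 0, 0⟩
  wi := ⟨5872294035456, 0, 0, 0⟩
  w1 := ⟨0, 5669356830720, 0, 0⟩
  h000 := ⟨0, 53045860096, 0, 0⟩
  h001 := ⟨42172396096, 0, 0, 0⟩
  h002 := ⟨0, 48427854528, 0, 0⟩
  h003 := ⟨66093996032, 0, 0, 0⟩
  h010 := ⟨0, 1044675583488, 0, 0⟩
  h011 := ⟨410170653504, 0, 0, 0⟩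
  h012 := ⟨0, 420259439232, 0, 0⟩
  h020 := ⟨0, 331523791552, 0, 0⟩
  h021 := ⟨10714258418368, 0, 0, 0⟩
  h030 := ⟨33047020316544, 0, 0, 0⟩
  h100 := ⟨11108343872, 0, 0, 0⟩
  h101 := ⟨0, 4887813888, 0, 0⟩
  h102 := ⟨0, 691350336, 0, 0⟩
  h110 := ⟨175688843200, 0, 0, 0⟩
  h111 := ⟨0, 137678679232, 0, 0⟩
  h120 := ⟨44561730752, 0, 0, 0⟩
  h200 := ⟨0, 1652812096, 0, 0⟩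
  h201 := ⟨216169536, 0, 0, 0⟩
  h210 := ⟨0, 15447747392, 0, 0⟩
  h300 := ⟨132853632, 0, 0, 0⟩
  h400 := ⟨0, 5336064, 0, 0⟩
  m000 := ⟨0, 0, 0, 0⟩
  m001 := ⟨0, 0, 0, 0⟩
  m002 := ⟨0, 0, 0, 0⟩
  m010 := ⟨0, 0, 0, 0⟩
  m100 := ⟨0, 0, 0, 0⟩
  m101 := ⟨0, 0, 0, 0⟩
  m110 := ⟨0, 0, 0, 0⟩
  m200 := ⟨0, 0, 0, 0⟩
  m300 := ⟨0, 0, 0, 0⟩
  a00 := ⟨76698091520, 0, 0, 0⟩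
  a01 := ⟨84973977600, 0, 0, 0⟩
  a02 := ⟨0, 334568947712, 0, 0⟩
  a03 := ⟨72486748160, 0, 0, 0⟩
  a10 := ⟨216943820800, 0, 0, 0⟩
  a11 := ⟨277899968512, 0, 0, 0⟩
  b00 := ⟨0, 0, 0, 0⟩
  b01 := ⟨0, 0, 0, 0⟩
  b02 := ⟨0, 0, 0, 0⟩
  b03 := ⟨0, 0, 0, 0⟩
  b10 := ⟨0, 0, 0, 0⟩
  b11 := ⟨0, 0, 0, 0⟩
  t00 := ⟨1495860051968, 0, 0, 0⟩
  t01 := ⟨1683715784704, 0, 0, 0⟩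
  t02 := ⟨145252876288, 0, 0, 0⟩
  t03 := ⟨0, 4539106852864, 0, 0⟩
  t10 := ⟨0, 7114998874112, 0, 0⟩
  t11 := ⟨0, 5241612402688, 0, 0⟩
  s00 := ⟨0, 0, 0, 0⟩
  s01 := ⟨0, 0, 0, 0⟩
  s02 := ⟨0, 0, 0, 0⟩
  s03 := ⟨0, 0, 0, 0⟩
  s10 := ⟨0, 0, 0, 0⟩
  s11 := ⟨0, 0, 0, 0⟩
  g00 := ⟨92142591104, 0, 0, 0⟩
  g01 := ⟨0, 209880174976, 0, 0⟩
  g10 := ⟨1611298385536, 0, 0, 0⟩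
  g11 := ⟨0, 0, 0, 0⟩
  f00 := ⟨1407557260096, 0, 0, 0⟩
  f01 := ⟨216841913024, 0, 0, 0⟩
  f10 := ⟨28832252189888, 0, 0, 0⟩
  f11 := ⟨0, 0, 0, 0⟩
  l000 := ⟨3531408848576, 0, 0, 0⟩
  l001 := ⟨74203681088, 0, 0, 0⟩
  l002 := ⟨2645134912, 0, 0, 0⟩
  l010 := ⟨2386416186624, 0, 0, 0⟩
  l011 := ⟨509935246144, 0, 0, 0⟩
  l020 := ⟨0, 13371538676672, 0, 0⟩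
  l100 := ⟨820299374080, 0, 0, 0⟩
  l101 := ⟨0, 138882717696, 0, 0⟩
  l102 := ⟨0, 125902193344, 0, 0⟩
  l110 := ⟨0, 14103045878720, 0, 0⟩
  l111 := ⟨0, 2459977357056, 0, 0⟩
  l120 := ⟨13284218553792, 0, 0, 0⟩
  l200 := ⟨791235151872, 0, 0, 0⟩
  l201 := ⟨230935292288, 0, 0, 0⟩
  l210 := ⟨0, 11591914972544, 0, 0⟩
  l300 := ⟨0, 2671049308288, 0, 0⟩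
  l301 := ⟨0, 146286612672, 0, 0⟩
  l310 := ⟨4086113951296, 0, 0, 0⟩
  l400 := ⟨5176032911104, 0, 0, 0⟩
  l401 := ⟨72903352064, 0, 0, 0⟩
  l410 := ⟨0, 13327240426944, 0, 0⟩
  l500 := ⟨0, 5930847192576, 0, 0⟩
  l600 := ⟨3808518404736, 0, 0, 0⟩
  l700 := ⟨0, 1489715156736, 0, 0⟩
  q00 := ⟨4489397888, 0, 0, 0⟩
  q01 := ⟨0, 126907131904, 0, 0⟩
  q02 := ⟨2982959688896, 0, 0, 0⟩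
  q03 := ⟨0, 5892906016128, 0, 0⟩
  q10 := ⟨0, 1190478863232, 0, 0⟩
  q11 := ⟨8176399516352, 0, 0, 0⟩
  q12 := ⟨0, 10026068441472, 0, 0⟩
  q20 := ⟨17585973073152, 0, 0, 0⟩
  q21 := ⟨0, 13805769336960, 0, 0⟩
  q30 := ⟨0, 206948769504960, 0, 0⟩
  n000 := ⟨1100414320640, 0, 0, 0⟩
  n001 := ⟨2784231424, 0, 0, 0⟩
  n002 := ⟨41549496320, 0, 0, 0⟩
  n010 := ⟨0, 556204490752, 0, 0⟩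
  n011 := ⟨875675516928, 0, 0, 0⟩
  n020 := ⟨6372753342464, 0, 0, 0⟩
  n100 := ⟨81881858048, 0, 0, 0⟩
  n101 := ⟨9505800192, 0, 0, 0⟩
  n110 := ⟨4530193104896, 0, 0, 0⟩
  n200 := ⟨413334437888, 0, 0, 0⟩
  n201 := ⟨0, 1511784448, 0, 0⟩
  n210 := ⟨0, 679710425088, 0, 0⟩
  n300 := ⟨0, 251606990848, 0, 0⟩
  n400 := ⟨20480524288, 0, 0, 0⟩
  n500 := ⟨134097010688, 0, 0, 0⟩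
  e00 := ⟨108779274240, 0, 0, 0⟩
  e01 := ⟨180918812672, 0, 0, 0⟩
  e02 := ⟨784018571264, 0, 0, 0⟩
  e03 := ⟨0, 2238867243008, 0, 0⟩
  e10 := ⟨0, 20588658688, 0, 0⟩
  e11 := ⟨2424105730048, 0, 0, 0⟩
  B1 := 0

end Pool.Agent.helper12.KE
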