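import Pool.Agent.helper12.GP.LAQP
import Pool.Agent.helper12.GP.LBQP
import Pool.Agent.helper12.GP.MAQP
import Pool.Agent.helper12.GP.MBQP
import Pool.Agent.helper12.KE.P

/-!
Generated certificates.
-/

namespace Pool.Agent.helper12.KE

open Pool.Agent.helper31.IX (Cov cov_split)
open Pool.Agent.helper12.GP
open Pool.Agent.helper14.QF (cov_E)

mutual
theorem N0A : Cov 1 (MAQ.prog0 p0) [(73300705280, 18325962752), (77309411328, 77309411328), (549755813888, 549755813888)] :=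
  cov_E (MAQ.chkB0_eq p0) (.n 1 (.n 2 (.n 2 (.n 2 .l .l) (.n 2 .l .l)) (.n 0 (.n 2 .l .l) (.n 2 .l .l))) (.n 1 (.n 2 (.n 2 (.n 2 .l .l) (.n 2 .l .l)) (.n 2 .l .l)) (.n 2 (.n 2 (.n 2 .l .l) (.n 2 .l .l)) (.n 2 .l .l))))
    [(73300705280, 18325962752), (77309411328, 77309411328), (549755813888, 549755813888)] rfl (by decide +kernel)
theorem N0B0_t1 : Cov 1 (MBQ.prog0 p0) [(64137723904, 9162981376), (54975791104, 54975791104), (549755813888, 549755813888)] :=
  cov_E (MBQ.chkB0_eq p0) (.n 1 (.n 2 (.n 2 .l .l) (.n 1 (.n 2 .l .l) (.n 2 .l .l))) (.n 2 (.n 2 .l .l) (.n 1 (.n 2 .l .l) (.n 2 .l .l))))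
    [(64137723904, 9162981376), (54975791104, 54975791104), (549755813888, 549755813888)] rfl (by decide +kernel)
end

mutual
theorem N0B0_t2 : Cov 1 (MBQ.prog0 p0) [(82463686656, 9162981376), (54975791104, 54975791104), (549755813888, 549755813888)] :=
  cov_E (MBQ.chkB0_eq p0) (.n 1 (.n 2 (.n 2 .l (.n 0 .l .l)) (.n 1 (.n 2 .l .l) (.n 2 .l .l))) (.n 2 (.n 2 .l (.n 0 .l .l)) (.n 1 (.n 2 .l .l) (.n 2 .l .l))))
    [(82463686656, 9162981376), (54975791104, 54975791104), (549755813888, 549755813888)] rfl (by decide +kernel)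
theorem N0B1 : Cov 1 (MBQ.prog0 p0) [(73300705280, 18325962752), (142936637440, 32986103808), (386547056640, 386547056640)] :=
  cov_E (MBQ.chkB0_eq p0) (.n 0 (.n 2 (.n 2 .l .l) (.n 2 .l (.n 0 .l .l))) (.n 2 (.n 2 .l .l) (.n 1 (.n 2 .l .l) (.n 2 .l .l))))
    [(73300705280, 18325962752), (142936637440, 32986103808), (386547056640, 386547056640)] rfl (by decide +kernel)
end

mutual
theorem N0B2 : Cov 1 (MBQ.prog0 p0) [(73300705280, 18325962752), (225399799808, 49478107136), (241591910400, 241591910400)] :=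
  cov_E (MBQ.chkB0_eq p0) (.n 0 (.n 1 (.n 2 .l .l) (.n 2 .l .l)) (.n 2 (.n 1 .l .l) (.n 2 .l (.n 0 .l .l))))
    [(73300705280, 18325962752), (225399799808, 49478107136), (241591910400, 241591910400)] rfl (by decide +kernel)
theorem N1A_t1 : Cov 1 (MAQ.prog0 p1) [(64137723904, 9162981376), (77309411328, 77309411328), (549755813888, 549755813888)] :=
  cov_E (MAQ.chkB0_eq p1) (.n 1 (.n 2 (.n 2 (.n 2 .l .l) (.n 2 .l .l)) (.n 2 .l .l)) (.n 2 (.n 2 (.n 2 .l .l) (.n 2 .l .l)) (.n 2 .l .l)))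
    [(64137723904, 9162981376), (77309411328, 77309411328), (549755813888, 549755813888)] rfl (by decide +kernel)
end

mutual
theorem N1A_t2 : Cov 1 (MAQ.prog0 p1) [(82463686656, 9162981376), (77309411328, 77309411328), (549755813888, 549755813888)] :=
  cov_E (MAQ.chkB0_eq p1) (.n 1 (.n 2 (.n 2 (.n 2 .l .l) (.n 2 .l .l)) (.n 2 (.n 0 .l .l) .l)) (.n 2 (.n 2 (.n 2 .l .l) (.n 2 .l .l)) (.n 2 (.n 0 .l .l) .l)))
    [(82463686656, 9162981376), (77309411328, 77309411328), (549755813888, 549755813888)] rfl (by decide +kernel)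
theorem N1B0_t1 : Cov 1 (MBQ.prog0 p1) [(73300705280, 18325962752), (27487895552, 27487895552), (549755813888, 549755813888)] :=
  cov_E (MBQ.chkB0_eq p1) (.n 2 (.n 2 (.n 2 .l .l) (.n 0 (.n 0 .l .l) (.n 1 .l .l))) (.n 0 (.n 1 (.n 2 .l .l) (.n 2 .l .l)) (.n 1 (.n 2 .l .l) (.n 2 .l .l))))
    [(73300705280, 18325962752), (27487895552, 27487895552), (549755813888, 549755813888)] rfl (by decide +kernel)
end

mutual
theorem N1B0_t2 : Cov 1 (MBQ.prog0 p1) [(73300705280, 18325962752), (82463686656, 27487895552), (549755813888, 549755813888)] :=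
  cov_E (MBQ.chkB0_eq p1) (.n 2 (.n 2 (.n 2 .l .l) (.n 0 (.n 0 .l .l) (.n 1 .l .l))) (.n 0 (.n 1 (.n 2 .l .l) (.n 2 .l .l)) (.n 1 (.n 2 .l .l) (.n 2 .l .l))))
    [(73300705280, 18325962752), (82463686656, 27487895552), (549755813888, 549755813888)] rfl (by decide +kernel)
theorem N1B1 : Cov 1 (MBQ.prog0 p1) [(73300705280, 18325962752), (142936637440, 32986103808), (386547056640, 386547056640)] :=
  cov_E (MBQ.chkB0_eq p1) (.n 0 (.n 2 (.n 2 .l .l) (.n 0 (.n 2 .l .l) (.n 2 .l .l))) (.n 2 (.n 2 .l .l) (.n 1 (.n 2 .l .l) (.n 2 .l .l))))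
    [(73300705280, 18325962752), (142936637440, 32986103808), (386547056640, 386547056640)] rfl (by decide +kernel)
end

mutual
theorem N1B2 : Cov 1 (MBQ.prog0 p1) [(73300705280, 18325962752), (225399799808, 49478107136), (241591910400, 241591910400)] :=
  cov_E (MBQ.chkB0_eq p1) (.n 0 (.n 2 (.n 1 .l .l) (.n 2 .l (.n 0 .l .l))) (.n 1 (.n 2 .l (.n 0 .l .l)) (.n 2 .l (.n 0 .l .l))))
    [(73300705280, 18325962752), (225399799808, 49478107136), (241591910400, 241591910400)] rfl (by decide +kernel)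
theorem N2A_t1 : Cov 1 (MAQ.prog0 p2) [(64137723904, 9162981376), (77309411328, 77309411328), (549755813888, 549755813888)] :=
  cov_E (MAQ.chkB0_eq p2) (.n 1 (.n 2 (.n 2 (.n 2 .l .l) (.n 2 .l .l)) (.n 2 (.n 0 .l .l) .l)) (.n 2 (.n 2 (.n 2 .l .l) (.n 2 .l .l)) (.n 2 (.n 0 .l .l) .l)))
    [(64137723904, 9162981376), (77309411328, 77309411328), (549755813888, 549755813888)] rfl (by decide +kernel)
end

mutual
theorem N2A_t2 : Cov 1 (MAQ.prog0 p2) [(82463686656, 9162981376), (77309411328, 77309411328), (549755813888, 549755813888)] :=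
  cov_E (MAQ.chkB0_eq p2) (.n 1 (.n 2 (.n 2 (.n 2 .l .l) (.n 2 .l .l)) (.n 0 (.n 2 .l .l) (.n 2 .l .l))) (.n 2 (.n 2 (.n 2 .l .l) (.n 2 .l .l)) (.n 0 (.n 2 .l .l) (.n 2 .l .l))))
    [(82463686656, 9162981376), (77309411328, 77309411328), (549755813888, 549755813888)] rfl (by decide +kernel)
theorem N2B0_t1 : Cov 1 (MBQ.prog0 p2) [(73300705280, 18325962752), (27487895552, 27487895552), (549755813888, 549755813888)] :=
  cov_E (MBQ.chkB0_eq p2) (.n 2 (.n 2 (.n 2 .l (.n 0 .l .l)) (.n 0 (.n 0 .l .l) (.n 1 .l .l))) (.n 0 (.n 1 (.n 2 .l .l) (.n 2 .l .l)) (.n 1 (.n 2 .l .l) (.n 2 .l .l))))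
    [(73300705280, 18325962752), (27487895552, 27487895552), (549755813888, 549755813888)] rfl (by decide +kernel)
end

mutual
theorem N2B0_t2 : Cov 1 (MBQ.prog0 p2) [(73300705280, 18325962752), (82463686656, 27487895552), (549755813888, 549755813888)] :=
  cov_E (MBQ.chkB0_eq p2) (.n 2 (.n 2 (.n 2 .l (.n 0 .l .l)) (.n 0 (.n 1 .l .l) (.n 1 .l .l))) (.n 0 (.n 1 (.n 2 .l .l) (.n 2 .l .l)) (.n 1 (.n 2 .l (.n 0 .l .l)) (.n 0 (.n 2 .l .l) (.n 2 .l .l)))))
    [(73300705280, 18325962752), (82463686656, 27487895552), (549755813888, 549755813888)] rfl (by decide +kernel)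
theorem N2B1 : Cov 1 (MBQ.prog0 p2) [(73300705280, 18325962752), (142936637440, 32986103808), (386547056640, 386547056640)] :=
  cov_E (MBQ.chkB0_eq p2) (.n 0 (.n 2 (.n 2 .l (.n 0 .l .l)) (.n 1 (.n 2 .l .l) (.n 2 .l .l))) (.n 2 (.n 2 .l (.n 0 .l .l)) (.n 1 (.n 2 .l .l) (.n 2 .l .l))))
    [(73300705280, 18325962752), (142936637440, 32986103808), (386547056640, 386547056640)] rfl (by decide +kernel)
end

mutual
theorem N2B2 : Cov 1 (MBQ.prog0 p2) [(73300705280, 18325962752), (225399799808, 49478107136), (241591910400, 241591910400)] :=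
  cov_E (MBQ.chkB0_eq p2) (.n 0 (.n 2 (.n 2 .l .l) (.n 0 (.n 1 .l .l) (.n 1 .l .l))) (.n 2 (.n 2 .l (.n 0 .l .l)) (.n 1 (.n 0 .l .l) (.n 2 .l .l))))
    [(73300705280, 18325962752), (225399799808, 49478107136), (241591910400, 241591910400)] rfl (by decide +kernel)
theorem N3A_t1 : Cov 1 (MAQ.prog0 p3) [(64137723904, 9162981376), (77309411328, 77309411328), (549755813888, 549755813888)] :=
  cov_E (MAQ.chkB0_eq p3) (.n 1 (.n 2 (.n 2 (.n 2 .l .l) (.n 2 .l .l)) (.n 0 (.n 2 .l .l) (.n 2 .l .l))) (.n 2 (.n 2 (.n 2 .l .l) (.n 2 .l .l)) (.n 0 (.n 2 .l .l) (.n 2 .l .l))))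
    [(64137723904, 9162981376), (77309411328, 77309411328), (549755813888, 549755813888)] rfl (by decide +kernel)
end

mutual
theorem N3A_t2 : Cov 1 (MAQ.prog0 p3) [(82463686656, 9162981376), (77309411328, 77309411328), (549755813888, 549755813888)] :=
  cov_E (MAQ.chkB0_eq p3) (.n 1 (.n 2 (.n 2 (.n 2 .l .l) (.n 2 .l .l)) (.n 1 (.n 2 .l .l) (.n 2 .l .l))) (.n 2 (.n 2 (.n 2 .l .l) (.n 2 .l .l)) (.n 1 (.n 2 .l .l) (.n 2 .l .l))))
    [(82463686656, 9162981376), (77309411328, 77309411328), (549755813888, 549755813888)] rfl (by decide +kernel)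
theorem N3B0_t1 : Cov 1 (MBQ.prog0 p3) [(64137723904, 9162981376), (54975791104, 54975791104), (549755813888, 549755813888)] :=
  cov_E (MBQ.chkB0_eq p3) (.n 1 (.n 1 (.n 2 (.n 2 .l .l) (.n 2 .l .l)) (.n 2 (.n 2 .l .l) (.n 2 .l .l))) (.n 1 (.n 2 (.n 2 .l .l) (.n 2 .l (.n 0 .l .l))) (.n 2 (.n 2 .l .l) (.n 0 (.n 2 .l .l) (.n 2 .l .l)))))
    [(64137723904, 9162981376), (54975791104, 54975791104), (549755813888, 549755813888)] rfl (by decide +kernel)
end

mutual
theorem N3B0_t2 : Cov 1 (MBQ.prog0 p3) [(82463686656, 9162981376), (54975791104, 54975791104), (549755813888, 549755813888)] :=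
  cov_E (MBQ.chkB0_eq p3) (.n 1 (.n 1 (.n 2 (.n 2 .l .l) (.n 2 .l .l)) (.n 2 (.n 2 .l .l) (.n 0 (.n 2 .l .l) (.n 2 .l .l)))) (.n 2 (.n 2 (.n 1 .l .l) (.n 2 .l .l)) (.n 0 (.n 1 (.n 2 .l .l) (.n 2 .l .l)) (.n 1 (.n 2 .l .l) (.n 2 .l .l)))))
    [(82463686656, 9162981376), (54975791104, 54975791104), (549755813888, 549755813888)] rfl (by decide +kernel)
theorem N3B1 : Cov 1 (MBQ.prog0 p3) [(73300705280, 18325962752), (142936637440, 32986103808), (386547056640, 386547056640)] :=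
  cov_E (MBQ.chkB0_eq p3) (.n 0 (.n 2 (.n 2 .l (.n 0 .l .l)) (.n 1 (.n 2 .l .l) (.n 2 .l .l))) (.n 1 (.n 2 (.n 2 .l .l) (.n 2 .l .l)) (.n 2 (.n 2 .l .l) (.n 2 .l .l))))
    [(73300705280, 18325962752), (142936637440, 32986103808), (386547056640, 386547056640)] rfl (by decide +kernel)
end

mutual
theorem N3B2 : Cov 1 (MBQ.prog0 p3) [(73300705280, 18325962752), (225399799808, 49478107136), (241591910400, 241591910400)] :=
  cov_E (MBQ.chkB0_eq p3) (.n 0 (.n 1 (.n 2 (.n 0 .l .l) (.n 2 .l .l)) (.n 2 (.n 0 .l .l) (.n 2 .l .l))) (.n 1 (.n 2 (.n 0 .l .l) (.n 2 .l .l)) (.n 2 (.n 2 .l .l) (.n 2 .l .l))))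
    [(73300705280, 18325962752), (225399799808, 49478107136), (241591910400, 241591910400)] rfl (by decide +kernel)
theorem N4A_t1 : Cov 1 (LAQ.prog0 p4) [(73300705280, 18325962752), (38654705664, 38654705664), (549755813888, 549755813888)] :=
  cov_E (LAQ.chkB0_eq p4) (.n 2 (.n 0 (.n 2 (.n 2 .l .l) (.n 2 .l .l)) (.n 2 (.n 2 .l .l) (.n 2 .l .l))) (.n 2 (.n 2 .l .l) (.n 0 .l .l)))
    [(73300705280, 18325962752), (38654705664, 38654705664), (549755813888, 549755813888)] rfl (by decide +kernel)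
end

mutual
theorem N4A_t2 : Cov 1 (LAQ.prog0 p4) [(73300705280, 18325962752), (115964116992, 38654705664), (549755813888, 549755813888)] :=
  cov_E (LAQ.chkB0_eq p4) (.n 0 (.n 2 (.n 2 (.n 2 .l .l) (.n 2 .l .l)) (.n 2 (.n 0 .l .l) .l)) (.n 2 (.n 2 (.n 2 .l .l) (.n 2 .l .l)) (.n 2 (.n 2 .l .l) (.n 0 .l .l))))
    [(73300705280, 18325962752), (115964116992, 38654705664), (549755813888, 549755813888)] rfl (by decide +kernel)
theorem N4B0_t1 : Cov 1 (LBQ.prog0 p4) [(73300705280, 18325962752), (27487895552, 27487895552), (549755813888, 549755813888)] :=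
  cov_E (LBQ.chkB0_eq p4) (.n 1 (.n 2 (.n 2 .l .l) (.n 2 .l .l)) (.n 2 (.n 2 .l .l) (.n 0 (.n 2 .l .l) (.n 2 .l .l))))
    [(73300705280, 18325962752), (27487895552, 27487895552), (549755813888, 549755813888)] rfl (by decide +kernel)
theorem N4B0_t2 : Cov 1 (LBQ.prog0 p4) [(73300705280, 18325962752), (82463686656, 27487895552), (549755813888, 549755813888)] :=
  cov_E (LBQ.chkB0_eq p4) (.n 0 (.n 2 (.n 2 .l (.n 0 .l .l)) (.n 1 (.n 2 .l .l) (.n 2 .l (.n 0 .l .l)))) (.n 2 (.n 2 .l (.n 1 .l .l)) (.n 1 (.n 2 .l .l) (.n 1 (.n 2 .l .l) (.n 2 .l .l)))))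
    [(73300705280, 18325962752), (82463686656, 27487895552), (549755813888, 549755813888)] rfl (by decide +kernel)
end

theorem N0B0 : Cov 1 (MBQ.prog0 p0) [(73300705280, 18325962752), (54975791104, 54975791104), (549755813888, 549755813888)] :=
  cov_split 0 (by decide +kernel) N0B0_t1 N0B0_t2

theorem N1A : Cov 1 (MAQ.prog0 p1) [(73300705280, 18325962752), (77309411328, 77309411328), (549755813888, 549755813888)] :=
  cov_split 0 (by decide +kernel) N1A_t1 N1A_t2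

theorem N1B0 : Cov 1 (MBQ.prog0 p1) [(73300705280, 18325962752), (54975791104, 54975791104), (549755813888, 549755813888)] :=
  cov_split 1 (by decide +kernel) N1B0_t1 N1B0_t2

theorem N2A : Cov 1 (MAQ.prog0 p2) [(73300705280, 18325962752), (77309411328, 77309411328), (549755813888, 549755813888)] :=
  cov_split 0 (by decide +kernel) N2A_t1 N2A_t2

theorem N2B0 : Cov 1 (MBQ.prog0 p2) [(73300705280, 18325962752), (54975791104, 54975791104), (549755813888, 549755813888)] :=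
  cov_split 1 (by decide +kernel) N2B0_t1 N2B0_t2

theorem N3A : Cov 1 (MAQ.prog0 p3) [(73300705280, 18325962752), (77309411328, 77309411328), (549755813888, 549755813888)] :=
  cov_split 0 (by decide +kernel) N3A_t1 N3A_t2

theorem N3B0 : Cov 1 (MBQ.prog0 p3) [(73300705280, 18325962752), (54975791104, 54975791104), (549755813888, 549755813888)] :=
  cov_split 0 (by decide +kernel) N3B0_t1 N3B0_t2

theorem N4A : Cov 1 (LAQ.prog0 p4) [(73300705280, 18325962752), (77309411328, 77309411328), (549755813888, 549755813888)] :=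
  cov_split 1 (by decide +kernel) N4A_t1 N4A_t2

theorem N4B0 : Cov 1 (LBQ.prog0 p4) [(73300705280, 18325962752), (54975791104, 54975791104), (549755813888, 549755813888)] :=
  cov_split 1 (by decide +kernel) N4B0_t1 N4B0_t2

end Pool.Agent.helper12.KE
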