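import Pool.Agent.helper12.GP.FAQP
import Pool.Agent.helper12.GP.FBQP
import Pool.Agent.helper12.GP.LBQP
import Pool.Agent.helper12.KE.P

/-!
Generated certificates.
-/

namespace Pool.Agent.helper12.KE

open Pool.Agent.helper31.IX (Cov cov_split)
open Pool.Agent.helper12.GP
open Pool.Agent.helper14.QF (cov_E)

mutual
theorem N4B1 : Cov 1 (LBQ.prog0 p4) [(73300705280, 18325962752), (142936637440, 32986103808), (386547056640, 386547056640)] :=
  cov_E (LBQ.chkB0_eq p4) (.n 0 (.n 2 (.n 2 .l (.n 0 .l .l)) (.n 1 (.n 2 .l .l) (.n 2 .l (.n 0 .l .l)))) (.n 1 (.n 2 (.n 2 .l .l) (.n 2 .l (.n 0 .l .l))) (.n 2 (.n 2 .l .l) (.n 2 (.n 0 .l .l) (.n 2 .l (.n 0 .l .l))))))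
    [(73300705280, 18325962752), (142936637440, 32986103808), (386547056640, 386547056640)] rfl (by decide +kernel)
theorem N4B2_t1 : Cov 1 (LBQ.prog0 p4) [(64137723904, 9162981376), (225399799808, 49478107136), (241591910400, 241591910400)] :=
  cov_E (LBQ.chkB0_eq p4) (.n 1 (.n 2 (.n 0 .l .l) (.n 2 .l (.n 0 .l .l))) (.n 2 (.n 2 .l (.n 0 .l .l)) (.n 0 (.n 2 .l .l) (.n 2 .l (.n 0 .l .l)))))
    [(64137723904, 9162981376), (225399799808, 49478107136), (241591910400, 241591910400)] rfl (by decide +kernel)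
end

mutual
theorem N4B2_t2 : Cov 1 (LBQ.prog0 p4) [(82463686656, 9162981376), (225399799808, 49478107136), (241591910400, 241591910400)] :=
  cov_E (LBQ.chkB0_eq p4) (.n 1 (.n 2 (.n 2 .l (.n 0 .l .l)) (.n 0 (.n 2 .l .l) (.n 2 .l (.n 0 .l .l)))) (.n 0 (.n 2 (.n 2 .l .l) (.n 1 (.n 2 .l .l) (.n 2 .l .l))) (.n 2 (.n 2 .l (.n 0 .l .l)) (.n 1 (.n 2 .l .l) (.n 2 .l (.n 0 .l .l))))))
    [(82463686656, 9162981376), (225399799808, 49478107136), (241591910400, 241591910400)] rfl (by decide +kernel)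
theorem FA : Cov 1 (FAQ.prog0 pF) [(73300705280, 18325962752), (27487895552, 27487895552), (549755813888, 549755813888)] :=
  cov_E (FAQ.chkB0_eq pF) (.n 1 (.n 2 (.n 2 (.n 0 .l .l) .l) (.n 2 .l .l)) (.n 0 (.n 2 (.n 2 .l .l) (.n 2 .l .l)) (.n 2 (.n 2 .l .l) (.n 2 .l .l))))
    [(73300705280, 18325962752), (27487895552, 27487895552), (549755813888, 549755813888)] rfl (by decide +kernel)
end

mutual
theorem FB_t1 : Cov 1 (FBQ.prog0 pF) [(73300705280, 18325962752), (68719476736, 68719476736), (549755813888, 549755813888)] :=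
  cov_E (FBQ.chkB0_eq pF) (.n 1 (.n 2 (.n 2 .l (.n 0 .l .l)) (.n 0 (.n 2 .l .l) (.n 2 .l .l))) (.n 1 (.n 2 (.n 2 .l .l) (.n 2 .l .l)) (.n 2 (.n 2 .l .l) (.n 2 .l .l))))
    [(73300705280, 18325962752), (68719476736, 68719476736), (549755813888, 549755813888)] rfl (by decide +kernel)
theorem FB_t2 : Cov 1 (FBQ.prog0 pF) [(73300705280, 18325962752), (206158430208, 68719476736), (549755813888, 549755813888)] :=
  cov_E (FBQ.chkB0_eq pF) (.n 1 (.n 1 (.n 2 (.n 2 .l .l) (.n 2 .l (.n 0 .l .l))) (.n 2 (.n 2 .l .l) (.n 0 (.n 2 .l .l) (.n 2 .l .l)))) (.n 1 (.n 2 (.n 2 .l .l) (.n 0 (.n 2 .l .l) (.n 2 .l .l))) (.n 2 (.n 2 .l (.n 0 .l .l)) (.n 0 (.n 2 .l .l) (.n 2 .l .l)))))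
    [(73300705280, 18325962752), (206158430208, 68719476736), (549755813888, 549755813888)] rfl (by decide +kernel)
end

theorem N4B2 : Cov 1 (LBQ.prog0 p4) [(73300705280, 18325962752), (225399799808, 49478107136), (241591910400, 241591910400)] :=
  cov_split 0 (by decide +kernel) N4B2_t1 N4B2_t2

theorem FB : Cov 1 (FBQ.prog0 pF) [(73300705280, 18325962752), (137438953472, 137438953472), (549755813888, 549755813888)] :=
  cov_split 1 (by decide +kernel) FB_t1 FB_t2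

end Pool.Agent.helper12.KE
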